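import Pool.Agent.helper26.IM.SpecA

/-! Module im:LOS: certificates and ultraproducts. -/

set_option autoImplicit false

open Finset

namespace Pool.Agent.helper26.IM

open Pool.Agent.RRank Pool.Agent.helper35.MR

/-- the combinatorial data of a certificate -/
abbrev LOS_F (ι : Type) (N : ℕ) : Type :=
  Σ (p q r : Fin (N + 1)), (Fin p → ι) × (Fin q → ι) × (Fin r → ι)

/-- the certificate for fixed combinatorial data -/
def LOS_Q {ι K : Type} [Fintype ι] [Field K] (M : ι → ι → ι → K)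
    (x : LOS_F ι (Fintype.card ι)) : Prop :=
  2 * Fintype.card ι < (x.1 : ℕ) + (x.2.1 : ℕ) + (x.2.2.1 : ℕ) ∧
  ∃ (A : Fin x.1 → ι → K) (B : Fin x.2.1 → ι → K) (C : Fin x.2.2.1 → ι → K),
    (∀ a b, A a (x.2.2.2.1 b) = if a = b then 1 else 0) ∧
    (∀ a b, B a (x.2.2.2.2.1 b) = if a = b then 1 else 0) ∧
    (∀ a b, C a (x.2.2.2.2.2 b) = if a = b then 1 else 0) ∧
    ∀ a b c, ev3 M (A a) (B b) (C c) = 0

theorem LOS_le {ι K : Type} [Fintype ι] [Field K] {p : ℕ} (A : Fin p → ι → K) (s : Fin p → ι)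
    (h : ∀ a b, A a (s b) = if a = b then 1 else 0) : p < Fintype.card ι + 1 := by
  have hs : Function.Injective s := by
    intro a b hab
    by_contra hne
    have h1 := h a a
    have h2 := h a b
    rw [if_pos rfl] at h1
    rw [if_neg hne, ← hab, h1] at h2
    exact one_ne_zero h2
  have := Fintype.card_le_of_injective s hs
  rw [Fintype.card_fin] at this
  omega

theorem LOS_of {ι K : Type} [Fintype ι] [Field K] (M : ι → ι → ι → K) (h : NF M) :
    ∃ x, LOS_Q M x := by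
  obtain ⟨p, q, r, A, B, C, s, t, u, h0, h1, h2, h3, h4⟩ := h
  exact ⟨⟨⟨p, LOS_le A s h1⟩, ⟨q, LOS_le B t h2⟩, ⟨r, LOS_le C u h3⟩, s, t, u⟩, h0, A, B, C, h1,
    h2, h3, h4⟩

theorem LOS_germ {Ω : Type} (𝓅 : Ultrafilter Ω) (K : Ω → Type) [∀ ω, Field (K ω)] {ι : Type}
    {p : ℕ} (A : ∀ ω, Fin p → ι → K ω) (s : Fin p → ι)
    (h : ∀ᶠ ω in (𝓅 : Filter Ω), ∀ a b, A ω a (s b) = if a = b then 1 else 0) (a b : Fin p) :
    UF.mk 𝓅 (fun ω => A ω a (s b)) = if a = b then 1 else 0 := by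
  by_cases hab : a = b
  · rw [if_pos hab, ← map_one (UF.mk 𝓅), UF.mk_eq_mk]
    filter_upwards [h] with ω hω
    rw [hω, if_pos hab]
    rfl
  · rw [if_neg hab, UF.mk_eq_zero]
    filter_upwards [h] with ω hω
    rw [hω, if_neg hab]

theorem LOS : LOS_stmt := by
  intro Ω 𝓅 K _ ι _ M hM
  classical
  have h1 : ∃ x : LOS_F ι (Fintype.card ι), ∀ᶠ ω in (𝓅 : Filter Ω), LOS_Q (M ω) x := by
    by_contra hcon
    rw [not_exists] at hcon
    have h2 : ∀ x : LOS_F ι (Fintype.card ι), ∀ᶠ ω in (𝓅 : Filter Ω), ¬ LOS_Q (M ω) x := by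
      intro x
      rw [Ultrafilter.eventually_not]
      exact hcon x
    have h3 := Filter.eventually_all.2 h2
    have h4 : ∀ᶠ ω in (𝓅 : Filter Ω), False := by
      filter_upwards [h3, hM] with ω h5 h6
      obtain ⟨x, hx⟩ := LOS_of (M ω) h6
      exact h5 x hx
    exact 𝓅.neBot.ne (Filter.eventually_false_iff_eq_bot.1 h4)
  obtain ⟨⟨p, q, r, s, t, u⟩, hx⟩ := h1
  have h0 : 2 * Fintype.card ι < (p : ℕ) + (q : ℕ) + (r : ℕ) := by
    obtain ⟨ω, hω⟩ := hx.exists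
    exact hω.1
  have hc : ∀ ω, ∃ (A : Fin p → ι → K ω) (B : Fin q → ι → K ω) (C : Fin r → ι → K ω),
      LOS_Q (M ω) ⟨p, q, r, s, t, u⟩ →
      (∀ a b, A a (s b) = if a = b then 1 else 0) ∧ (∀ a b, B a (t b) = if a = b then 1 else 0) ∧
      (∀ a b, C a (u b) = if a = b then 1 else 0) ∧
      ∀ a b c, ev3 (M ω) (A a) (B b) (C c) = 0 := by
    intro ω
    by_cases h : LOS_Q (M ω) ⟨p, q, r, s, t, u⟩
    · obtain ⟨-, A, B, C, h⟩ := h
      exact ⟨A, B, C, fun _ => h⟩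
    · exact ⟨0, 0, 0, fun h' => absurd h' h⟩
  choose A B C hABC using hc
  refine ⟨p, q, r, fun a i => UF.mk 𝓅 (fun ω => A ω a i), fun b i => UF.mk 𝓅 (fun ω => B ω b i),
    fun c i => UF.mk 𝓅 (fun ω => C ω c i), s, t, u, h0,
    LOS_germ 𝓅 K A s (hx.mono fun ω hω => (hABC ω hω).1),
    LOS_germ 𝓅 K B t (hx.mono fun ω hω => (hABC ω hω).2.1),
    LOS_germ 𝓅 K C u (hx.mono fun ω hω => (hABC ω hω).2.2.1), ?_⟩
  intro a b c
  have e : ev3 (fun i j k => UF.mk 𝓅 (fun ω => M ω i j k)) (fun i => UF.mk 𝓅 (fun ω => A ω a i))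
      (fun i => UF.mk 𝓅 (fun ω => B ω b i)) (fun i => UF.mk 𝓅 (fun ω => C ω c i)) =
      UF.mk 𝓅 (∑ i, ∑ j, ∑ k, (fun ω => M ω i j k * (A ω a i * B ω b j * C ω c k))) := by
    unfold ev3
    simp only [map_sum]
    refine Finset.sum_congr rfl fun i _ => Finset.sum_congr rfl fun j _ =>
      Finset.sum_congr rfl fun k _ => ?_
    rw [← map_mul, ← map_mul, ← map_mul]
    rfl
  rw [e, UF.mk_eq_zero]
  filter_upwards [hx] with ω hω
  have h5 := (hABC ω hω).2.2.2 a b c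
  rw [← h5]
  unfold ev3
  simp only [Finset.sum_apply]

end Pool.Agent.helper26.IM
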